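import Pool.Agent.U209.SZ.B

/-!
# Extremal point-line configurations that are not lattice sections

Let `G(K)` be the set of the `K ^ 2` real numbers `a + b √2` with integers `0 ≤ a, b < K`. The points
`P = G(k) × G(4 k ^ 2)` and the lines `y = s x + t`, `s ∈ G(k)`, `t ∈ G(k ^ 2)`, have at least `k ^ 8`
incidences, the order of magnitude of the Szemerédi-Trotter bound. If a subset of `P` (or of the set
of the dual points of the lines) is mapped to a set of rational points by a projective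
transformation, then on every horizontal (vertical) line it has at most `2 k` (`2 k ^ 2`) points: the
cross ratios are rational, which is a nonzero quadratic equation for the coordinates `(a, b)` of
`a + b √2`. So such a subset has at most `32 k ^ 5` (`2 k ^ 4`) points, and Q1 has a negative answer.
-/

set_option autoImplicit false

open Finset
open scoped Classical

namespace Pool.Agent.Results.MP_fad2aa_co.NotLatticeSections

/-- `l` is a line of the plane -/
def IsLine (l : Set (ℝ × ℝ)) : Prop :=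
  ∃ a b c : ℝ, ¬(a = 0 ∧ b = 0) ∧ l = {p | a * p.1 + b * p.2 = c}

/-- the number of the incidences -/
noncomputable def incidences (P : Finset (ℝ × ℝ)) (L : Finset (Set (ℝ × ℝ))) : ℕ :=
  ((P ×ˢ L).filter fun x => x.1 ∈ x.2).card

/-- homogeneous coordinates of the image of `p` under the projective transformation with matrix `M` -/
noncomputable def hom (M : Matrix (Fin 3) (Fin 3) ℝ) (p : ℝ × ℝ) : Fin 3 → ℝ :=
  M.mulVec ![p.1, p.2, 1]

/-- `Q` is mapped by a projective transformation, which sends none of its points to the line at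
infinity, into a lattice section `{1, …, a} × {1, …, b}` of size `a b ≤ s` -/
def InSection (Q : Finset (ℝ × ℝ)) (s : ℝ) : Prop :=
  ∃ M : Matrix (Fin 3) (Fin 3) ℝ, M.det ≠ 0 ∧ ∃ a b : ℕ, ((a * b : ℕ) : ℝ) ≤ s ∧
    ∀ p ∈ Q, hom M p 2 ≠ 0 ∧ (∃ i : ℕ, 1 ≤ i ∧ i ≤ a ∧ hom M p 0 / hom M p 2 = i) ∧
      ∃ j : ℕ, 1 ≤ j ∧ j ≤ b ∧ hom M p 1 / hom M p 2 = j

/-- `Q` is mapped by a projective transformation, which sends none of its points to the line at
infinity, to a set of rational points -/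
def ToRational (Q : Finset (ℝ × ℝ)) : Prop :=
  ∃ M : Matrix (Fin 3) (Fin 3) ℝ, M.det ≠ 0 ∧ ∀ p ∈ Q, hom M p 2 ≠ 0 ∧
    (∃ q : ℚ, hom M p 0 / hom M p 2 = q) ∧ ∃ q : ℚ, hom M p 1 / hom M p 2 = q

/-- `Q` consists of the dual points `(s, t)` of lines `y = s x - t` in `L` -/
def Dual (Q : Finset (ℝ × ℝ)) (L : Finset (Set (ℝ × ℝ))) : Prop :=
  ∀ q ∈ Q, {p : ℝ × ℝ | p.2 = q.1 * p.1 - q.2} ∈ L

/-- alternative (a) of Q1 -/
def AltA (c C : ℝ) (m : ℕ) (P : Finset (ℝ × ℝ)) : Prop :=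
  ∃ Q : Finset (ℝ × ℝ), Q ⊆ P ∧ c * m ≤ Q.card ∧ InSection Q (C * m)

/-- alternative (b) of Q1 -/
def AltB (c C : ℝ) (n : ℕ) (L : Finset (Set (ℝ × ℝ))) : Prop :=
  ∃ Q : Finset (ℝ × ℝ), Dual Q L ∧ c * n ≤ Q.card ∧ InSection Q (C * n)

/-- the statement asked for in Q1 -/
def Q1 : Prop :=
  ∀ C₁ c₂ c₃ : ℝ, 0 < C₁ → 0 < c₂ → 0 < c₃ → ∃ c C : ℝ, 0 < c ∧ 0 < C ∧ ∃ N : ℕ,
    ∀ m n : ℕ, N ≤ m → N ≤ n → c₂ * Real.sqrt n ≤ m → (m : ℝ) ≤ C₁ * (n : ℝ) ^ 2 →
    ∀ (P : Finset (ℝ × ℝ)) (L : Finset (Set (ℝ × ℝ))), P.card = m → L.card = n →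
      (∀ l ∈ L, IsLine l) →
      c₃ * ((m : ℝ) ^ (2 / 3 : ℝ) * (n : ℝ) ^ (2 / 3 : ℝ)) ≤ incidences P L →
      AltA c C m P ∨ AltB c C n L

open Pool.Agent.U209.SZ

theorem InSection.toRational {Q : Finset (ℝ × ℝ)} {s : ℝ} (h : InSection Q s) : ToRational Q := by
  obtain ⟨M, hM, a, b, _, h⟩ := h
  refine ⟨M, hM, fun p hp => ?_⟩
  obtain ⟨h1, ⟨i, _, _, hi⟩, j, _, _, hj⟩ := h p hp
  exact ⟨h1, ⟨i, by rw [hi]; simp⟩, ⟨j, by rw [hj]; simp⟩⟩

/-- the set of points -/
noncomputable def pts (k : ℕ) : Finset (ℝ × ℝ) := G k ×ˢ G (4 * k ^ 2)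

/-- the line `y = s x + t` -/
def line (q : ℝ × ℝ) : Set (ℝ × ℝ) := {p | p.2 = q.1 * p.1 + q.2}

theorem line_inj {q r : ℝ × ℝ} (h : line q = line r) : q = r := by
  have h0 : ((0 : ℝ), q.2) ∈ line r := by rw [← h]; simp [line]
  have h1 : ((1 : ℝ), q.1 + q.2) ∈ line r := by rw [← h]; simp [line]
  simp only [line, Set.mem_setOf_eq] at h0 h1
  exact Prod.ext (by linarith) (by linarith)

/-- the set of lines -/
noncomputable def lns (k : ℕ) : Finset (Set (ℝ × ℝ)) := (G k ×ˢ G (k ^ 2)).image line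

theorem card_pts (k : ℕ) : (pts k).card = 16 * k ^ 6 := by
  rw [pts, card_product, card_G, card_G]; ring

theorem card_lns (k : ℕ) : (lns k).card = k ^ 6 := by
  rw [lns, card_image_of_injective _ (fun _ _ h => line_inj h), card_product, card_G, card_G]; ring

theorem isLine_of_mem {k : ℕ} {l : Set (ℝ × ℝ)} (h : l ∈ lns k) : IsLine l := by
  obtain ⟨q, _, rfl⟩ := mem_image.mp h
  refine ⟨q.1, -1, -q.2, fun h => by simpa using h.2, ?_⟩
  ext p
  simp only [line, Set.mem_setOf_eq]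
  constructor <;> intro h <;> linarith

theorem inc_ge (k : ℕ) : k ^ 8 ≤ incidences (pts k) (lns k) := by
  have h1 : ((G k ×ˢ G (k ^ 2)) ×ˢ G k).card = k ^ 8 := by
    rw [card_product, card_product, card_G, card_G]; ring
  rw [← h1, incidences]
  refine card_le_card_of_injOn (fun x : (ℝ × ℝ) × ℝ => ((x.2, x.1.1 * x.2 + x.1.2), line x.1)) ?_ ?_
  · intro x hx
    simp only [coe_product, Set.mem_prod, mem_coe] at hx
    obtain ⟨⟨hx1, hx2⟩, hx3⟩ := hx
    simp only [coe_filter, mem_product, Set.mem_setOf_eq]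
    refine ⟨⟨?_, ?_⟩, ?_⟩
    · rw [pts, mem_product]
      exact ⟨hx3, mul_add_mem hx1 hx3 hx2⟩
    · exact mem_image.mpr ⟨x.1, mem_product.mpr ⟨hx1, hx2⟩, rfl⟩
    · simp [line]
  · intro x _ y _ hxy
    simp only [Prod.mk.injEq] at hxy
    exact Prod.ext (line_inj hxy.2) hxy.1.1

/-- a subset of `P` which is projectively equivalent to a set of rational points is small -/
theorem small_pts {k : ℕ} {Q : Finset (ℝ × ℝ)} (hQ : Q ⊆ pts k) (h : ToRational Q) :
    Q.card ≤ 32 * k ^ 5 := by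
  obtain ⟨M, hM, h⟩ := h
  have h1 : Q.card ≤ (2 * k) * (G (4 * k ^ 2)).card := by
    refine card_le_mul_card_image_of_maps_to (f := fun p : ℝ × ℝ => p.2) ?_ _ ?_
    · intro p hp
      exact (mem_product.mp (hQ hp)).2
    · intro y _
      set S : Finset (ℤ × ℤ) := (box k).filter fun p => (z p, y) ∈ Q with hS
      have hc : (Q.filter fun p : ℝ × ℝ => p.2 = y).card ≤ S.card := by
        have hsub : (Q.filter fun p : ℝ × ℝ => p.2 = y) ⊆ S.image fun p => (z p, y) := by
          intro p hp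
          obtain ⟨hp1, hp2⟩ := mem_filter.mp hp
          obtain ⟨x, hx, hx2⟩ := mem_image.mp (mem_product.mp (hQ hp1)).1
          have he : (z x, y) = p := Prod.ext hx2 hp2.symm
          exact mem_image.mpr ⟨x, mem_filter.mpr ⟨hx, by rw [he]; exact hp1⟩, he⟩
        exact (card_le_card hsub).trans card_image_le
      refine hc.trans (card_vec (M := M) hM (u := ![0, y, 1]) (v := ![1, 0, 0]) ?_ ?_ ?_ ?_ ?_)
      · intro c d hcd
        have e0 := congrFun hcd 0
        have e2 := congrFun hcd 2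
        simp at e0 e2
        exact ⟨e0, e2⟩
      · intro p hp
        exact mem_box.mp (mem_filter.mp hp).1
      all_goals
        intro p hp
        have hp2 := h _ (mem_filter.mp hp).2
        have he : (z p) • ![(1 : ℝ), 0, 0] + ![0, y, 1] = ![z p, y, 1] := by
          funext i; fin_cases i <;> simp
        rw [he]
      · exact hp2.1
      · exact hp2.2.1
      · exact hp2.2.2
  refine h1.trans (le_of_eq ?_)
  rw [card_G]; ring

/-- a set of dual points which is projectively equivalent to a set of rational points is small -/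
theorem small_lns {k : ℕ} {Q : Finset (ℝ × ℝ)} (hQ : Dual Q (lns k)) (h : ToRational Q) :
    Q.card ≤ 2 * k ^ 4 := by
  obtain ⟨M, hM, h⟩ := h
  have hmem : ∀ q ∈ Q, q.1 ∈ G k ∧ -q.2 ∈ G (k ^ 2) := by
    intro q hq
    obtain ⟨r, hr, hr2⟩ := mem_image.mp (hQ q hq)
    have : line (q.1, -q.2) = line r := by
      rw [hr2]
      ext p
      simp only [line, Set.mem_setOf_eq]
      constructor <;> intro h <;> linarith
    have := line_inj this
    rw [← this] at hr
    exact mem_product.mp hr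
  have h1 : Q.card ≤ (2 * k ^ 2) * (G k).card := by
    refine card_le_mul_card_image_of_maps_to (f := fun p : ℝ × ℝ => p.1) ?_ _ ?_
    · intro p hp
      exact (hmem p hp).1
    · intro s _
      set S : Finset (ℤ × ℤ) := (box (k ^ 2)).filter fun p => (s, -z p) ∈ Q with hS
      have hc : (Q.filter fun p : ℝ × ℝ => p.1 = s).card ≤ S.card := by
        have hsub : (Q.filter fun p : ℝ × ℝ => p.1 = s) ⊆ S.image fun p => (s, -z p) := by
          intro p hp
          obtain ⟨hp1, hp2⟩ := mem_filter.mp hp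
          obtain ⟨x, hx, hx2⟩ := mem_image.mp (hmem p hp1).2
          have he : (s, -z x) = p := Prod.ext hp2.symm (by rw [hx2]; ring)
          exact mem_image.mpr ⟨x, mem_filter.mpr ⟨hx, by rw [he]; exact hp1⟩, he⟩
        exact (card_le_card hsub).trans card_image_le
      refine hc.trans (card_vec (M := M) hM (u := ![s, 0, 1]) (v := ![0, -1, 0]) ?_ ?_ ?_ ?_ ?_)
      · intro c d hcd
        have e0 := congrFun hcd 1
        have e2 := congrFun hcd 2
        simp at e0 e2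
        exact ⟨e0, e2⟩
      · intro p hp
        exact mem_box.mp (mem_filter.mp hp).1
      all_goals
        intro p hp
        have hp2 := h _ (mem_filter.mp hp).2
        have he : (z p) • ![(0 : ℝ), -1, 0] + ![s, 0, 1] = ![s, -z p, 1] := by
          funext i; fin_cases i <;> simp
        rw [he]
      · exact hp2.1
      · exact hp2.2.1
      · exact hp2.2.2
  refine h1.trans (le_of_eq ?_)
  rw [card_G]; ring

/-- the negative answer to Q1 -/
theorem not_Q1 : ¬ Q1 := by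
  intro hQ
  obtain ⟨c, C, hc, hC, N, h⟩ := hQ 16 1 (1 / 9) (by norm_num) one_pos (by norm_num)
  obtain ⟨k, hk⟩ : ∃ k : ℕ, N + 1 + 2 / c < k := exists_nat_gt _
  have hc2 : 0 < 2 / c := by positivity
  have hk1 : N + 1 ≤ k := by
    have : ((N + 1 : ℕ) : ℝ) ≤ k := by push_cast; linarith
    exact_mod_cast this
  have hk0 : 1 ≤ k := by omega
  have hkR : (1 : ℝ) ≤ k := by exact_mod_cast hk0
  have hck : 2 < c * k := by
    have h1 : 2 / c < k := by
      have : (0 : ℝ) ≤ N := Nat.cast_nonneg _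
      linarith
    rw [div_lt_iff₀ hc] at h1
    linarith
  have hpow : k ≤ k ^ 6 := by
    calc k = k ^ 1 := (pow_one k).symm
      _ ≤ k ^ 6 := Nat.pow_le_pow_right hk0 (by norm_num)
  have hk6 : (1 : ℝ) ≤ (k : ℝ) ^ 6 := one_le_pow₀ hkR
  have := h (16 * k ^ 6) (k ^ 6) (by omega) (by omega) ?_ ?_ (pts k) (lns k) (card_pts k)
    (card_lns k) (fun l hl => isLine_of_mem hl) ?_
  · rcases this with ⟨Q, hQP, hcard, hsec⟩ | ⟨Q, hQL, hcard, hsec⟩
    · have h2 := small_pts hQP hsec.toRational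
      have h3 : (Q.card : ℝ) ≤ 32 * (k : ℝ) ^ 5 := by exact_mod_cast h2
      push_cast at hcard
      have h4 : (0 : ℝ) < (k : ℝ) ^ 5 := by positivity
      have h5 : c * (16 * (k : ℝ) ^ 6) = (c * k) * (16 * (k : ℝ) ^ 5) := by ring
      nlinarith
    · have h2 := small_lns hQL hsec.toRational
      have h3 : (Q.card : ℝ) ≤ 2 * (k : ℝ) ^ 4 := by exact_mod_cast h2
      push_cast at hcard
      have h4 : (0 : ℝ) < (k : ℝ) ^ 4 := by positivity
      have h5 : c * (k : ℝ) ^ 6 = (c * k) * ((k : ℝ) * (k : ℝ) ^ 4) := by ring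
      have h6 : (k : ℝ) ^ 4 ≤ (k : ℝ) * (k : ℝ) ^ 4 := by nlinarith
      nlinarith
  · push_cast
    have h1 : Real.sqrt ((k : ℝ) ^ 6) ≤ (k : ℝ) ^ 6 := by
      rw [Real.sqrt_le_left (by positivity)]
      nlinarith
    nlinarith
  · push_cast
    nlinarith
  · have h1 : (16 * (k : ℝ) ^ 6) ^ (2 / 3 : ℝ) ≤ 9 * (k : ℝ) ^ 4 := by
      have e1 : (16 * (k : ℝ) ^ 6) ≤ (3 * (k : ℝ) ^ 2) ^ (3 : ℝ) := by
        rw [show (3 : ℝ) = ((3 : ℕ) : ℝ) by norm_num, Real.rpow_natCast]
        push_cast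
        nlinarith
      calc (16 * (k : ℝ) ^ 6) ^ (2 / 3 : ℝ)
          ≤ ((3 * (k : ℝ) ^ 2) ^ (3 : ℝ)) ^ (2 / 3 : ℝ) :=
            Real.rpow_le_rpow (by positivity) e1 (by norm_num)
        _ = (3 * (k : ℝ) ^ 2) ^ (2 : ℝ) := by
            rw [← Real.rpow_mul (by positivity)]; norm_num
        _ = 9 * (k : ℝ) ^ 4 := by
            rw [show (2 : ℝ) = ((2 : ℕ) : ℝ) by norm_num, Real.rpow_natCast]
            ring
    have h2 : ((k : ℝ) ^ 6) ^ (2 / 3 : ℝ) = (k : ℝ) ^ 4 := by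
      rw [show (k : ℝ) ^ 6 = (k : ℝ) ^ (6 : ℝ) by
        rw [show (6 : ℝ) = ((6 : ℕ) : ℝ) by norm_num, Real.rpow_natCast],
        ← Real.rpow_mul (by positivity)]
      rw [show (6 : ℝ) * (2 / 3) = ((4 : ℕ) : ℝ) by norm_num, Real.rpow_natCast]
    have h3 : ((k : ℝ) ^ 8) ≤ incidences (pts k) (lns k) := by exact_mod_cast inc_ge k
    push_cast
    rw [h2]
    have h4 : (16 * (k : ℝ) ^ 6) ^ (2 / 3 : ℝ) * (k : ℝ) ^ 4 ≤ 9 * (k : ℝ) ^ 4 * (k : ℝ) ^ 4 :=
      mul_le_mul_of_nonneg_right h1 (by positivity)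
    have h5 : 9 * (k : ℝ) ^ 4 * (k : ℝ) ^ 4 = 9 * (k : ℝ) ^ 8 := by ring
    linarith

/-- **Main theorem.** (1) Q1 has a negative answer. (2) For every `k` there are `16 k ^ 6` points
and `k ^ 6` lines with at least `k ^ 8` incidences such that every set of the points which some
projective transformation maps to rational points has at most `32 k ^ 5` elements, and every set of
dual points of the lines which some projective transformation maps to rational points has at most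
`2 k ^ 4` elements. -/
theorem result : ¬ Q1 ∧
    ∀ k : ℕ, ∃ (P : Finset (ℝ × ℝ)) (L : Finset (Set (ℝ × ℝ))), P.card = 16 * k ^ 6 ∧
      L.card = k ^ 6 ∧ (∀ l ∈ L, IsLine l) ∧ k ^ 8 ≤ incidences P L ∧
      (∀ Q : Finset (ℝ × ℝ), Q ⊆ P → ToRational Q → Q.card ≤ 32 * k ^ 5) ∧
      ∀ Q : Finset (ℝ × ℝ), Dual Q L → ToRational Q → Q.card ≤ 2 * k ^ 4 :=
  ⟨not_Q1, fun k => ⟨pts k, lns k, card_pts k, card_lns k, fun _ hl => isLine_of_mem hl, inc_ge k,
    fun _ hQ h => small_pts hQ h, fun _ hQ h => small_lns hQ h⟩⟩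

end Pool.Agent.Results.MP_fad2aa_co.NotLatticeSections
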